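import Pool.Agent.H80.LP.Mono

/-!
# Craig interpolation plus Lyndon positivity gives Lyndon interpolation for logics with uniform
interpolation, in particular for all locally tabular logics

Formulas, monotone modal logics, LPP and LIP are those of
`Pool/Agent/Results/MP_55f31a_lc/LyndonPositivity.lean`; CIP, uniform interpolation and local
tabularity are defined in `Pool/Agent/H80/LP/Basic.lean`.

Proof. Let `φ → ψ` be in `Λ` and let `L` be the set of the common literals. Take a new variable
`l⁺` for each literal `l` of `L`, replace every occurrence of a literal `l` of `L` in `φ` by
`l ∧ l⁺`, and let `M` be the strongest consequence in the new variables. `M` is monotone in `Λ`, so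
by the positivity property it is equivalent to a positive formula, and the substitution of `l` for
`l⁺` gives a Lyndon interpolant.
-/

set_option autoImplicit false

namespace Pool.Agent.Results.MP_4e66c5_lc.UniformInterpolation

open Pool.Agent.Results.MP_55f31a_lc.LyndonPositivity
open Pool.Agent.H80.LP

/-- **Theorem.** Let `Λ` be a monotone modal logic (for instance a normal one) with the Lyndon
positivity property. If `Λ` has uniform interpolation, or if `Λ` is locally tabular and has Craig
interpolation, then `Λ` has Lyndon interpolation. -/
theorem result (Λ : Set Fml) (h : MonotoneModalLogic Λ) (hP : LPP Λ)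
    (hU : UIP Λ ∨ (LocallyTabular Λ ∧ CIP Λ)) : LIP Λ := by
  rcases hU with hU | ⟨hT, hC⟩
  · exact lip_of_uip h hU hP
  · exact lip_of_uip h (uip_of_tabular h hT hC) hP

end Pool.Agent.Results.MP_4e66c5_lc.UniformInterpolation
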